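import Pool.Agent.Q28.FG.Main

/-!
# Bloch's conjecture and cycles which generate the kernel of the Albanese map

Let `S` be a complex projective surface and `T(S)` the kernel of the Albanese map on its zero-cycles
of degree zero (rational coefficients; the group `CH_0(S)` is finite-dimensional if and only if
`T(S) = 0`). A cycle class `z` of codimension `e` on some variety `V` *generates* `T(S)` if every
element of `T(S)` is of the form `Γ_* z` for a correspondence `Γ ∈ CH^(dim V + 2 - e)(V × S)`.

* `p_g(S) = 0` if and only if `T(S)` is generated by a homologically trivial cycle, if and only if it
  is generated by countably many homologically trivial cycles, and countably many families of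
  zero-cycles parametrised by Jacobians of curves.
* `CH_0(S)` is finite-dimensional if and only if `T(S)` is generated by an algebraically trivial
  cycle, if and only if it is generated by countably many algebraically trivial cycles, and countably
  many families of zero-cycles parametrised by Jacobians of curves, if and only if `T(S)` is a
  finitely generated module over the ring of self-correspondences `CH^2(S × S)`.

So the conjecture of Bloch says that if `T(S)` is generated by a homologically trivial cycle, then it
is generated by an algebraically trivial cycle, and for `p_g = 0` it is equivalent to the finite
generation of `T(S)` as a module.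
-/

open CategoryTheory AlgebraicGeometry

universe u v w

namespace Pool.Agent.Results.MP_7ebcb6_ag.GeneratingCycles

open Pool.Agent.H914 Pool.Agent.H914.VarClass Pool.Agent.H914.VarClass.Obj Pool.Agent.W492.BB
  Pool.Agent.TH133 Pool.Agent.Q28.PV Pool.Agent.Q28.AL Pool.Agent.Q28.FG

/-- **Generators of the kernel of the Albanese map.** Let `C` be the Chow theory with rational
coefficients and `H` a Weil cohomology theory on the smooth projective varieties over the complex
numbers (`hP`: known facts on algebraic cycles), `S` a surface and `p` the projector on its
transcendental motive `t_2(S)`, so that `H.cl p = 0` means `p_g(S) = 0`.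

1. Equivalent: `p_g(S) = 0`; there is a homologically trivial cycle `z` on a variety `V` such that
  every element of `T(S)` is of the form `Γ_* z`; there are countably many homologically trivial
  cycles `z i` on varieties `V i` and countably many correspondences `Φ i` from curves `U i` to `S`
  such that every element of `T(S)` is a sum of classes `Γ_* (z i)` and `(Φ i)_* c`, `c ∈ CH_0(U i)`.
2. Equivalent: `T(S) = 0`; `T(S)` is a finitely generated module over the ring `CH^2(S × S)`; there is
  an algebraically trivial cycle `z` on a variety `V` such that every element of `T(S)` is of the
  form `Γ_* z`; there are countably many algebraically trivial cycles `z i` and countably many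
  correspondences `Φ i` from curves with the property in 1. -/
theorem result {k : Type u} [Field k] {𝒱 : VarClass k} {C : TheoryData.{u, v, 0} 𝒱 ℚ}
    [IsChowProj C] {K : Type w} [Field K] {H : WeilTheoryData.{u, v, w} C K} [IsWeilProj H]
    (hP : Principles H) (S : 𝒱.Obj) (p : C.A (S.prod S)) (hp : IsTransc H S p) :
    [H.cl p = 0, OneGenerator H (HomTriv H) S, CountablyGenerated H (HomTriv H) S].TFAE ∧
    [∀ w, AlbKernel H S w → w = 0, FinitelyGenerated H S, OneGenerator H (AlgTriv H) S,
      CountablyGenerated H (AlgTriv H) S].TFAE :=
  final hP S p hp

end Pool.Agent.Results.MP_7ebcb6_ag.GeneratingCycles
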