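import Pool.Agent.Q55.Nil.Bloch

/-!
# Bloch's conjecture for surfaces with vanishing geometric genus and irregularity

A complex surface with `p_g = q = 0` has a cohomology spanned by algebraic cycles; this is the case
of Bloch's conjecture which is not covered by the known classification results. The motive of such
a surface, and more generally of every variety `X` with cohomology spanned by algebraic cycles, is
the sum of `b = dim H(X)` Lefschetz motives and of a phantom motive `(X, π)`, where `π` is a
numerically trivial idempotent. Bloch's conjecture says that `π` is zero, equivalently (Bloch and
Srinivas) that the class of the diagonal is a sum of external products.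

We show that it is equivalent to the existence of one linear relation between the graphs of the
permutations of the factors of `X^n` for some `n < 2 (b + 2)` (the numerical relations begin with
`n = b + 1`), and to the existence of any relation `∑_σ c(σ) σ = 0` on the powers of the phantom
motive, of any degree `n`, for which the sum of the coefficients of the cycles of length `n` is not
zero; relations of degree at most three need no condition.
-/

open CategoryTheory AlgebraicGeometry

universe u v w

namespace Pool.Agent.Results.MP_7ebcb6_ag.HookCriterion

open Pool.Agent.H914 Pool.Agent.H914.VarClass Pool.Agent.H914.VarClass.Obj Pool.Agent.W492.BB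
  Pool.Agent.TH133 Pool.Agent.TH829.Prime Pool.Agent.Q55.Nil.S
open Pool.Agent.Y110 (GradedCommutative)

/-- **Hook criterion.** Let `C` be the Chow theory and `H` a Weil cohomology theory (graded
commutative, with finite-dimensional values) on a class of smooth projective varieties, and `X` a
variety whose cohomology, of dimension `b`, is spanned by classes of algebraic cycles. Then `X` has
a phantom part: a numerically trivial idempotent correspondence `π` for which the class of the
diagonal minus `π` is a sum of external products. For every such `π` the following are
equivalent:
(1) `π = 0`;
(2) the class of the diagonal of `X` is a linear combination of external products `a × b`;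
(3) all numerically trivial self-correspondences of degree zero of `X` are zero;
(4) `X` has no phantoms: all numerically trivial idempotent self-correspondences are zero;
(5) for some `n` there is a relation `∑_σ c(σ) σ = 0` between the permutations of the factors of the
`n`-th power of the motive `(X, π)` for which the sum of the `c(σ)` over the cycles `σ` of length `n`
is not zero;
(6) for some `n < 4` there is a nontrivial relation between the permutations of the factors of the
`n`-th power of the motive `(X, π)`;
(7) for some `n < 2 (b + 2)` the graphs of the permutations of the factors of `X^n` are linearly
dependent modulo rational equivalence;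
(8) for every variety `Z` all classes on `Z × X` are linear combinations of external products. -/
theorem result {k : Type u} [Field k] {𝒱 : VarClass k} {C : TheoryData.{u, v, 0} 𝒱 ℚ}
    [IsChowProj C] {K : Type w} [Field K] {H : WeilTheoryData.{u, v, w} C K} [IsWeilProj H]
    (hg : GradedCommutative H) (hfin : ∀ Y : 𝒱.Obj, Module.Finite K (H.A Y)) {X : 𝒱.Obj}
    (hX : AlgCoh H X) :
    (∃ π, IsPhantomPart C X π) ∧ ∀ π, IsPhantomPart C X π →
      [π = 0,
        Splits C (diag C X),
        ∀ f : C.A (X.prod X), C.Deg X.dim f → NumTriv C X.dim f → f = 0,
        NoPhantoms C (rat C) X,
        ∃ (n : ℕ) (c : Equiv.Perm (Fin n) → ℚ), RelOf C π c ∧ longSum c ≠ 0,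
        ∃ n < 4, ∃ c : Equiv.Perm (Fin n) → ℚ, c ≠ 0 ∧ RelOf C π c,
        ∃ n < 2 * (bet H Even X + 2), Dep C (rat C) X n,
        ∀ (Z : 𝒱.Obj) (z : C.A (Z.prod X)), Splits C z].TFAE :=
  haveI := hfin X
  ⟨Pool.Agent.Q55.Nil.exists_phantomPart (H := H) hX,
    fun _ hπ => Pool.Agent.Q55.Nil.phantom_tfae hg hfin hX hπ⟩

end Pool.Agent.Results.MP_7ebcb6_ag.HookCriterion
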