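import Pool.Agent.Q28.HD.Main

/-!
# Bloch's conjecture can be tested on the product with an elliptic curve

Let `X` be a complex surface with `p_g = q = 0` and `E` an elliptic curve (or any curve of positive
genus). Bloch's conjecture for `X` says that all zero-cycles `z` of degree zero on `X` are
rationally equivalent to zero (with rational coefficients). We show that it is enough that the
zero-cycles `z × a` on the threefold `X × E` vanish, where `a` is of degree zero, or only that they
move in a finite-dimensional family. So if `B(X)` is infinite-dimensional, then so is its part in
`X × E` given by the cycles `z × (a - b)`.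

The proof uses correspondences supported in half of the dimension. More generally let `X` be of any
dimension, with a diagonal homologically equivalent to a sum of external products, with the
homologically trivial part `π` of the diagonal, and let `(V, p)` be a self-dual motive of nonzero
rank. If `π × p` is finite-dimensional on the cycles of dimension less than `c` on `X × V`, where
`2 c + 1 ≥ dim X + dim V`, then the diagonal of `X` is rationally equivalent to a sum of external
products.
-/

open CategoryTheory AlgebraicGeometry

universe u v w

namespace Pool.Agent.Results.MP_7ebcb6_ag.ProductWithCurve

open Pool.Agent.H914 Pool.Agent.H914.VarClass Pool.Agent.H914.VarClass.Obj Pool.Agent.W492.BB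
  Pool.Agent.W550.Corr Pool.Agent.TH133 Pool.Agent.Q28.LF Pool.Agent.Q28.HD

/-- Let `C` be the Chow theory with rational coefficients and `H` a Weil cohomology theory on a
class of smooth projective varieties over the complex numbers (`IsComplex` lists the properties
which are used), and `π` a phantom part of `X` (it exists for a surface `X` if `p_g = q = 0`).
(A) If a test on a product `X × V` holds, then the class of the diagonal of `X` is a sum of external
products.
(B) Let `X` be a surface and `E` a curve whose Euler characteristic (the self-intersection of the
diagonal) is not two. The following are equivalent: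
(1) every zero-cycle of degree zero on `X` is zero in `CH_0(X)`;
(2) the class of the diagonal of `X` is a sum of external products;
(3) for all zero-cycles `z` on `X` and `a` on `E` of degree zero `z × a` is zero in `CH_0(X × E)`;
(4) these zero-cycles `z × a` move in a finite-dimensional family: for a self-correspondence `κ` of
`X × E` which is a sum of external products and of correspondences through curves, they are
equal to their image under `κ`;
(5) a test on some product `X × V` holds. -/
theorem result {k : Type u} [Field k] {𝒱 : VarClass k} {C : TheoryData.{u, v, 0} 𝒱 ℚ}
    [IsChowProj C] {K : Type w} [Field K] {H : WeilTheoryData.{u, v, w} C K} [IsWeilProj H]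
    (hC : IsComplex C H) (X : 𝒱.Obj) (π : C.A (X.prod X)) (hπ : IsPhantom H X π) :
    (TestHolds π → dg C X ∈ split C X X X.dim) ∧
    ∀ E : 𝒱.Obj, X.dim = 2 → E.dim = 1 →
      ¬ HasDegree C (C.up (Obj.lift (𝟙 E) (𝟙 E)) (dg C E)) 2 →
      [∀ z : C.A X, ZeroCycle C X z → z = 0,
        dg C X ∈ split C X X 2,
        ∀ (z : C.A X) (a : C.A E), ZeroCycle C X z → ZeroCycle C E a →
          C.mul (C.up (fst X E) z) (C.up (snd X E) a) = 0,
        ∃ κ ∈ small C (X.prod E) (X.prod E) 3, ∀ (z : C.A X) (a : C.A E), ZeroCycle C X z →
          ZeroCycle C E a → C.mul (C.up (fst X E) z) (C.up (snd X E) a) =
            C.act κ (C.mul (C.up (fst X E) z) (C.up (snd X E) a)),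
        TestHolds π].TFAE :=
  ⟨split_of_test hC hπ, fun _ hX hE hχ => main_surface hC hE hχ hπ hX⟩

end Pool.Agent.Results.MP_7ebcb6_ag.ProductWithCurve
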