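import Pool.Agent.Q56.SQ.Bloch

/-!
# Bloch's conjecture and the zero-cycles of `X × X`

Let `X` be a complex surface with `p_g = q = 0`, and `T(X) = CH_0(X)_0 ⊗ ℚ`. Bloch's conjecture for `X` says that `T(X) = 0`. We
show that it is equivalent to each of the following statements on the zero-cycles of the fourfold `X × X`:

* `(x, x) + (y, y) = (x, y) + (y, x)` in `CH_0(X × X) ⊗ ℚ` for all points `x, y` of `X`, that is, `(x - y) × (x - y) = 0`;
* `z × z = 0` for all `z` in `T(X)`;
* the cycles `z × z`, for `z` in `T(X)`, are supported on a surface in `X × X`;
* the zero-cycles of the symmetric square of `X`, or of `X × X`, or of some variety which maps onto `X × X`, are supported on a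
  surface.

So if `T(X)` is not zero, the zero-cycles `z × z` are not supported on any surface, and the same holds for the zero-cycles of
`S^2 X` and of all varieties which dominate it. (The zero-cycles of `X × X` contain those of the surfaces `X × o`; so this
cannot be seen from the size of `T(X)`. For surfaces of geometric genus one, for example K3 surfaces, one expects
`z × w = w × z`, and `(x - o) × (x - o) = 0` for one fixed point `o`: the sign and the two variable points are essential.) If, on
the other hand, `z × w = w × z` for all `z, w` in `T(X)`, also up to cycles supported on a surface, then all correspondences of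
`X` are symmetric modulo sums of external products and algebraically trivial ones.

These are special cases of a fact on all surfaces `X` and homologically trivial self-correspondences `f` of `X`: if the
`f_* z × f_* w + ε f_* w × f_* z`, with `ε = 1` or `ε = -1`, are supported on a surface, then
`f^2 ∘ (Γ + ε Γ^t) ∘ (f^2)^t` is algebraically trivial for all `Γ` in `CH^2(X × X)`. For `ε = 1` and the diagonal `Γ` it follows that
`f^2 ∘ (f^2)^t` is nilpotent, and so is `f` if it is symmetric, as predicted by the conjectures of Bloch and Beilinson.

Proof. If a homologically trivial self-correspondence `F` of `W` maps the zero-cycles to cycles supported on surfaces, then, by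
the decomposition of Bloch and Srinivas, its transpose maps homologically trivial classes in `CH^2(W)` to algebraically
trivial ones. For `W = X × X` and `F = f × f` followed by the (anti)symmetrisation this is applied to the class
`f ∘ (Γ + ε Γ^t) ∘ f^t` in `CH^2(X × X)`. Algebraically trivial self-correspondences are nilpotent (Voevodsky, Voisin), and for a
surface with `p_g = q = 0` some `f` is the diagonal modulo sums of external products.
-/

open CategoryTheory AlgebraicGeometry

universe u v w

namespace Pool.Agent.Results.MP_7ebcb6_ag.SquaresOfZeroCycles

open Pool.Agent.H914 Pool.Agent.H914.VarClass Pool.Agent.H914.VarClass.Obj Pool.Agent.W492.BB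
  Pool.Agent.W550.Corr Pool.Agent.TH133 Pool.Agent.Q28.LF Pool.Agent.Q28.HD Pool.Agent.Q56.SQ

/-- Let `C` be the Chow theory with rational coefficients and `H` a Weil cohomology theory on a class of smooth projective
varieties over the complex numbers (`KnownFacts` lists the properties which are used). `OnSurface` means that the cycles
`u` which are described are supported on a surface: `u = κ_* u` for one `κ` which factors through surfaces.
(A) Let `π` be a phantom part of the surface `X` (it exists if `p_g = q = 0`). The following are equivalent
(`BlochEquivalences`):
(1) every zero-cycle of degree zero on `X` is zero in `CH_0(X)`;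
(2) the class of the diagonal of `X` is a sum of external products;
(3) `z × z = 0` in `CH_0(X × X)` for all zero-cycles `z` of degree zero;
(4) `(x, x) + (y, y) = (x, y) + (y, x)` in `CH_0(X × X)` for all points `x, y`, that is, `differenceSquare` is zero on the
zero-cycles of `X × X`;
(5) the `z × z`, `z` of degree zero, are supported on a surface;
(6) the zero-cycles `u + τ_* u` of the symmetric square of `X` are supported on a surface;
(7) the zero-cycles of `X × X` are supported on a surface;
(8) the zero-cycles of some variety which maps onto `X × X` are supported on a surface.
(B) If the `z × w - w × z` (for all `z`, `w` of degree zero) are supported on a surface, the classes `Γ` in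
`CH^2(X × X)` are symmetric modulo sums of external products and algebraically trivial classes (`CommutatorLaw`).
(C) Let `X` be any surface, `f` a homologically trivial self-correspondence, and `ε = 1` or `ε = -1`. If the
`f_* z × f_* w + ε f_* w × f_* z` are supported on a surface, the composition of `f^2`, `Γ + ε Γ^t` and the transpose of `f^2` is
algebraically trivial for all `Γ` in `CH^2(X × X)`; if `ε = 1`, the composition of `f^2` and its transpose is nilpotent, and `f` is
nilpotent if it is symmetric (`SquareLaw`).
(D) Let `X` and `Y` be any varieties, `f` homologically trivial on `X` and `g` on `Y`. If the `f_* z × g_* w`, for all zero-cycles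
`z` and `w`, are supported on a surface, then the composition of `f^2`, `Γ` and the transpose of `g^2` is algebraically
trivial for all `Γ` in `CH^2(X × Y)` (`PairLaw`). -/
theorem result {k : Type u} [Field k] {𝒱 : VarClass k} {C : TheoryData.{u, v, 0} 𝒱 ℚ} [IsChowProj C] {K : Type w} [Field K]
    {H : WeilTheoryData.{u, v, w} C K} [IsWeilProj H] (hK : KnownFacts H) :
    (∀ (X : 𝒱.Obj) (π : C.A (X.prod X)), X.dim = 2 → IsPhantom H X π → BlochEquivalences H X ∧ CommutatorLaw H X) ∧
    (∀ (X : 𝒱.Obj) (f : C.A (X.prod X)), X.dim = 2 → IsHomTrivial H 2 f → SquareLaw H f 1 ∧ SquareLaw H f (-1)) ∧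
    ∀ (X Y : 𝒱.Obj) (f : C.A (X.prod X)) (g : C.A (Y.prod Y)), IsHomTrivial H X.dim f → C.Deg Y.dim g →
      PairLaw H f g :=
  ⟨fun _ _ hX hπ => ⟨bloch hK hπ hX, commuting hK hπ hX⟩,
    fun _ _ hX hf => ⟨squareLaw hK hX hf.1 hf.2 (Or.inl rfl), squareLaw hK hX hf.1 hf.2 (Or.inr rfl)⟩,
    fun _ _ _ _ hf hg => pairLaw hK hf.1 hg hf.2⟩

end Pool.Agent.Results.MP_7ebcb6_ag.SquaresOfZeroCycles
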